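import Pool.Agent.Helper83.MM.StmtsB8

/-! Derivatives of ridge functions and quadratic functions; bounds for the families `Fam`. -/

open MeasureTheory Set Filter Topology
open scoped ContDiff

namespace Pool.Agent.Helper77.MM

open Pool.Agent.Helper83.MM

variable {k N : ℕ}

/-! ### Ridge functions -/

theorem ridge_hasFDerivAt {ψ : ℝ → ℝ} (hψ : Differentiable ℝ ψ) (u x : E k) :
    HasFDerivAt (fun x : E k => ψ (inner ℝ u x)) (deriv ψ (inner ℝ u x) • innerSL ℝ u) x := by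
  have h1 : HasFDerivAt (fun x : E k => inner ℝ u x) (innerSL ℝ u) x :=
    (innerSL ℝ u).hasFDerivAt
  exact (hψ (inner ℝ u x)).hasDerivAt.comp_hasFDerivAt x h1

theorem ridge_fderiv {ψ : ℝ → ℝ} (hψ : Differentiable ℝ ψ) (u : E k) :
    fderiv ℝ (fun x : E k => ψ (inner ℝ u x)) = fun x => deriv ψ (inner ℝ u x) • innerSL ℝ u :=
  funext fun x => (ridge_hasFDerivAt hψ u x).fderiv

theorem ridge_fderiv2 {ψ : ℝ → ℝ} (hψ : Differentiable ℝ ψ) (hψ' : Differentiable ℝ (deriv ψ))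
    (u x y z : E k) :
    fderiv ℝ (fderiv ℝ (fun x : E k => ψ (inner ℝ u x))) x y z =
      deriv (deriv ψ) (inner ℝ u x) * inner ℝ u y * inner ℝ u z := by
  rw [ridge_fderiv hψ u]
  have h := (ridge_hasFDerivAt hψ' u x).smul_const (innerSL ℝ u)
  rw [h.fderiv]
  simp [mul_assoc]

theorem ridge_contDiff {ψ : ℝ → ℝ} (hψ : ContDiff ℝ ∞ ψ) (u : E k) :
    ContDiff ℝ ∞ (fun x : E k => ψ (inner ℝ u x)) :=
  hψ.comp (innerSL ℝ u).contDiff

theorem ridge_D1 {ψ : ℝ → ℝ} (hψ : Differentiable ℝ ψ) (u x : E k) :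
    D1 (fun x : E k => ψ (inner ℝ u x)) x = inner ℝ u x * deriv ψ (inner ℝ u x) := by
  unfold D1
  rw [ridge_fderiv hψ u]
  simp [mul_comm]

theorem ridge_D2 {ψ : ℝ → ℝ} (hψ : Differentiable ℝ ψ) (hψ' : Differentiable ℝ (deriv ψ))
    (u x : E k) :
    D2 (fun x : E k => ψ (inner ℝ u x)) x = inner ℝ u x * deriv ψ (inner ℝ u x) +
      inner ℝ u x ^ 2 * deriv (deriv ψ) (inner ℝ u x) := by
  have h1 := ridge_D1 hψ u x
  unfold D1 at h1
  unfold D2
  rw [h1, ridge_fderiv2 hψ hψ']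
  ring

/-! ### Quadratic functions -/

theorem quad_hasFDerivAt (c : ℝ) (x : E k) :
    HasFDerivAt (fun x : E k => c / 2 * ‖x‖ ^ 2) (c • innerSL ℝ x) x := by
  have h1 : HasFDerivAt (fun x : E k => ‖x‖ ^ 2) (2 • (innerSL ℝ x)) x := by
    have := (hasStrictFDerivAt_norm_sq x).hasFDerivAt
    simpa using this
  have h2 := h1.const_mul (c / 2)
  have h3 : (c / 2) • (2 • (innerSL ℝ x)) = c • innerSL ℝ x := by
    ext y
    simp only [smul_apply, innerSL_apply_apply, smul_eq_mul, nsmul_eq_mul]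
    push_cast
    ring
  rwa [h3] at h2

theorem quad_fderiv (c : ℝ) :
    fderiv ℝ (fun x : E k => c / 2 * ‖x‖ ^ 2) = fun x => c • innerSL ℝ x :=
  funext fun x => (quad_hasFDerivAt c x).fderiv

theorem quad_fderiv2 (c : ℝ) (x y z : E k) :
    fderiv ℝ (fderiv ℝ (fun x : E k => c / 2 * ‖x‖ ^ 2)) x y z = c * inner ℝ y z := by
  rw [quad_fderiv c]
  have h : HasFDerivAt (fun x : E k => c • innerSL ℝ x) (c • innerSL ℝ) x :=
    (innerSL ℝ : E k →L[ℝ] E k →L[ℝ] ℝ).hasFDerivAt.const_smul c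
  rw [h.fderiv]
  simp only [smul_apply, smul_eq_mul]
  rfl

theorem quad_contDiff (c : ℝ) : ContDiff ℝ ∞ (fun x : E k => c / 2 * ‖x‖ ^ 2) :=
  contDiff_const.mul (contDiff_norm_sq ℝ)

theorem quad_convex {c : ℝ} (hc : 0 ≤ c) : ConvexOn ℝ univ (fun x : E k => c / 2 * ‖x‖ ^ 2) := by
  have h : ConvexOn ℝ univ (fun x : E k => ‖x‖ ^ 2) :=
    (convexOn_norm convex_univ).pow (fun x _ => norm_nonneg x) 2
  exact h.smul (by positivity : (0 : ℝ) ≤ c / 2)

/-! ### Second derivatives of convex functions -/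

theorem fderiv2_nonneg {f : E k → ℝ} (hf : ContDiff ℝ ∞ f) (hc : ConvexOn ℝ univ f) (x y : E k) :
    0 ≤ fderiv ℝ (fderiv ℝ f) x y y := by
  have hfd : Differentiable ℝ f := hf.differentiable (by simp)
  have hf2 : ContDiff ℝ ∞ (fderiv ℝ f) := hf.fderiv_right (by simp)
  have hfd2 : Differentiable ℝ (fderiv ℝ f) := hf2.differentiable (by simp)
  have hline : ∀ t : ℝ, HasDerivAt (fun t : ℝ => x + t • y) y t := fun t => by
    have := ((hasDerivAt_id t).smul_const y).const_add x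
    simpa using this
  have hg : ∀ t : ℝ, HasDerivAt (fun t : ℝ => f (x + t • y)) (fderiv ℝ f (x + t • y) y) t :=
    fun t => (hfd (x + t • y)).hasFDerivAt.comp_hasDerivAt t (hline t)
  have hgc : ConvexOn ℝ univ (fun t : ℝ => f (x + t • y)) := by
    refine ⟨convex_univ, fun s _ t _ l m hl hm hlm => ?_⟩
    have h := hc.2 (mem_univ (x + s • y)) (mem_univ (x + t • y)) hl hm hlm
    have h2 : x + (l • s + m • t) • y = l • (x + s • y) + m • (x + t • y) := by
      have hx : x = (l + m) • x := by rw [hlm, one_smul]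
      conv_lhs => rw [hx]
      simp only [smul_eq_mul, add_smul, smul_add, mul_smul]
      abel
    simp only [h2]
    exact h
  have hmono : MonotoneOn (deriv fun t : ℝ => f (x + t • y)) univ :=
    hgc.monotoneOn_deriv fun t _ => (hg t).differentiableAt
  have hderiv : (deriv fun t : ℝ => f (x + t • y)) = fun t => fderiv ℝ f (x + t • y) y :=
    funext fun t => (hg t).deriv
  rw [hderiv] at hmono
  have h2 : HasDerivAt (fun t : ℝ => fderiv ℝ f (x + t • y) y)
      (fderiv ℝ (fderiv ℝ f) x y y) 0 := by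
    have h3 : HasDerivAt (fun t : ℝ => fderiv ℝ f (x + t • y))
        (fderiv ℝ (fderiv ℝ f) (x + (0 : ℝ) • y) y) 0 :=
      (hfd2 (x + (0 : ℝ) • y)).hasFDerivAt.comp_hasDerivAt (0 : ℝ) (hline 0)
    have h4 := h3.clm_apply (hasDerivAt_const (0 : ℝ) y)
    simpa using h4
  rw [← h2.deriv]
  exact (monotoneOn_univ.1 hmono).deriv_nonneg

/-! ### One-variable families -/

section Fam

variable {K : ℝ} {ψ : Fin N → ℝ → ℝ}

theorem fam_diff (h : Fam K ψ) (i : Fin N) : Differentiable ℝ (ψ i) :=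
  (h.smooth i).differentiable (by simp)

theorem fam_contDiff_deriv (h : Fam K ψ) (i : Fin N) : ContDiff ℝ ∞ (deriv (ψ i)) :=
  (contDiff_infty_iff_deriv.1 (h.smooth i)).2

theorem fam_diff1 (h : Fam K ψ) (i : Fin N) : Differentiable ℝ (deriv (ψ i)) :=
  (fam_contDiff_deriv h i).differentiable (by simp)

theorem fam_contDiff_deriv2 (h : Fam K ψ) (i : Fin N) : ContDiff ℝ ∞ (deriv (deriv (ψ i))) :=
  (contDiff_infty_iff_deriv.1 (fam_contDiff_deriv h i)).2

theorem fam_deriv_odd (h : Fam K ψ) (i : Fin N) (t : ℝ) : deriv (ψ i) (-t) = -deriv (ψ i) t := by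
  have h1 : ψ i = fun s => ψ i (-s) := funext fun s => (h.even i s).symm
  have h2 : deriv (fun s => ψ i (-s)) (-t) = -deriv (ψ i) (- -t) := by
    rw [deriv_comp_neg]
  rw [← h1] at h2
  rw [h2, neg_neg]

theorem fam_deriv_zero (h : Fam K ψ) (i : Fin N) : deriv (ψ i) 0 = 0 := by
  have := fam_deriv_odd h i 0
  rw [neg_zero] at this
  linarith

theorem fam_K_nonneg (h : Fam K ψ) (i : Fin N) : 0 ≤ K := (h.lo i 0).trans (h.hi i 0)

theorem fam_deriv_nonneg (h : Fam K ψ) (i : Fin N) {t : ℝ} (ht : 0 ≤ t) : 0 ≤ deriv (ψ i) t := by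
  have hm : Monotone (deriv (ψ i)) := monotone_of_deriv_nonneg (fam_diff1 h i) (h.lo i)
  rw [← fam_deriv_zero h i]
  exact hm ht

theorem fam_deriv_le (h : Fam K ψ) (i : Fin N) {t : ℝ} (ht : 0 ≤ t) :
    deriv (ψ i) t ≤ K * t := by
  have hm : Monotone (fun t => K * t - deriv (ψ i) t) := by
    apply monotone_of_deriv_nonneg
    · exact (differentiable_id.const_mul K).sub (fam_diff1 h i)
    · intro t
      have h1 : HasDerivAt (fun t => K * t - deriv (ψ i) t) (K * 1 - deriv (deriv (ψ i)) t) t :=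
        ((hasDerivAt_id t).const_mul K).sub (fam_diff1 h i t).hasDerivAt
      rw [h1.deriv]
      linarith [h.hi i t]
  have h1 := hm ht
  simp only [mul_zero, fam_deriv_zero h i, sub_zero] at h1
  linarith

theorem fam_abs_deriv_le (h : Fam K ψ) (i : Fin N) (t : ℝ) : |deriv (ψ i) t| ≤ K * |t| := by
  rcases le_total 0 t with ht | ht
  · rw [abs_of_nonneg ht, abs_of_nonneg (fam_deriv_nonneg h i ht)]
    exact fam_deriv_le h i ht
  · have h1 := fam_deriv_odd h i (-t)
    rw [neg_neg] at h1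
    rw [h1, abs_neg, abs_of_nonneg (fam_deriv_nonneg h i (by linarith)), abs_of_nonpos ht]
    exact fam_deriv_le h i (by linarith)

/-- `t ψ'(t) ≥ 0`. -/
theorem fam_mul_deriv_nonneg (h : Fam K ψ) (i : Fin N) (t : ℝ) : 0 ≤ t * deriv (ψ i) t := by
  rcases le_total 0 t with ht | ht
  · exact mul_nonneg ht (fam_deriv_nonneg h i ht)
  · have h1 := fam_deriv_odd h i (-t)
    rw [neg_neg] at h1
    rw [h1]
    have := mul_nonneg (by linarith : 0 ≤ -t) (fam_deriv_nonneg h i (by linarith : 0 ≤ -t))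
    linarith

theorem fam_mul_deriv_le (h : Fam K ψ) (i : Fin N) (t : ℝ) : t * deriv (ψ i) t ≤ K * t ^ 2 := by
  have h1 : |t * deriv (ψ i) t| ≤ |t| * (K * |t|) := by
    rw [abs_mul]
    exact mul_le_mul_of_nonneg_left (fam_abs_deriv_le h i t) (abs_nonneg t)
  have h2 : |t| * (K * |t|) = K * t ^ 2 := by
    rw [← sq_abs]
    ring
  rw [h2] at h1
  exact (le_abs_self _).trans h1

theorem fam_zero_le (h : Fam K ψ) (i : Fin N) (t : ℝ) : ψ i 0 ≤ ψ i t := by
  have hm : MonotoneOn (ψ i) (Ici 0) := by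
    apply monotoneOn_of_deriv_nonneg (convex_Ici 0) (fam_diff h i).continuous.continuousOn
      ((fam_diff h i).differentiableOn)
    intro s hs
    rw [interior_Ici] at hs
    exact fam_deriv_nonneg h i (le_of_lt hs)
  rcases le_total 0 t with ht | ht
  · exact hm self_mem_Ici ht ht
  · rw [← h.even i t]
    exact hm self_mem_Ici (by simpa using ht) (by simpa using ht)

theorem fam_convexOn (h : Fam K ψ) (i : Fin N) : ConvexOn ℝ univ (ψ i) :=
  convexOn_univ_of_deriv2_nonneg (fam_diff h i) (fam_diff1 h i) fun t => h.lo i t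

end Fam

end Pool.Agent.Helper77.MM
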