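import Pool.Agent.Helper77.MM.Int

/-! Row PLC of the block B8. -/

open MeasureTheory Set Filter Topology
open scoped ContDiff ENNReal

namespace Pool.Agent.Helper77.MM

open Pool.Agent.Helper83.MM

variable {k N : ℕ}

/-- The real integral for the even powers and a Gaussian factor. -/
noncomputable def GP (u : Fin N → E k) (m : ℕ) (c : ℝ) (a : Fin N → ℝ) : ℝ :=
  ∫ x : E k, Real.exp (-(∑ i, (Real.exp (a i) * inner ℝ (u i) x) ^ (2 * m) + c / 2 * ‖x‖ ^ 2))

theorem even_pow_nonneg (t : ℝ) (m : ℕ) : 0 ≤ t ^ (2 * m) := by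
  rw [pow_mul]
  positivity

theorem GG_tendsto {m : ℕ} {ψ : ℕ → ℝ → ℝ} (hc : ∀ n, Continuous (ψ n)) (h0 : ∀ n t, 0 ≤ ψ n t)
    (hψ : ∀ (n : ℕ) (t : ℝ), |t| ≤ (n : ℝ) + 1 → ψ n t = t ^ (2 * m)) (u : Fin N → E k) {c : ℝ}
    (hc0 : 0 < c) (a : Fin N → ℝ) :
    Tendsto (fun n => GG u (fun _ => ψ n) c a) atTop (𝓝 (GP u m c a)) := by
  unfold GG GP
  apply tendsto_integral_of_dominated_convergence (fun x => Real.exp (-(c / 2 * ‖x‖ ^ 2)))
  · intro n
    apply Continuous.aestronglyMeasurable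
    have := hc n
    fun_prop
  · exact integrable_gauss (half_pos hc0)
  · intro n
    refine Eventually.of_forall fun x => ?_
    rw [Real.norm_of_nonneg (Real.exp_pos _).le]
    apply Real.exp_le_exp.2
    have : 0 ≤ ∑ i, ψ n (Real.exp (a i) * inner ℝ (u i) x) :=
      Finset.sum_nonneg fun i _ => h0 n _
    linarith
  · refine Eventually.of_forall fun x => ?_
    apply tendsto_const_nhds.congr'
    have h1 : ∀ i, ∀ᶠ n : ℕ in atTop, ψ n (Real.exp (a i) * inner ℝ (u i) x) =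
        (Real.exp (a i) * inner ℝ (u i) x) ^ (2 * m) := by
      intro i
      obtain ⟨n0, hn0⟩ := exists_nat_ge |Real.exp (a i) * inner ℝ (u i) x|
      filter_upwards [eventually_ge_atTop n0] with n hn
      have : ((n0 : ℕ) : ℝ) ≤ n := by exact_mod_cast hn
      exact hψ n _ (by linarith)
    filter_upwards [eventually_all.2 h1] with n hn
    simp only [hn]

theorem GP_rpow (hR : ST_RLC) (hC : ST_CUT) {m : ℕ} (hm : 1 ≤ m) (u : Fin N → E k) {c : ℝ}
    (hc0 : 0 < c) (a b : Fin N → ℝ) {l l' : ℝ} (hl : 0 < l) (hl' : 0 < l') (h1 : l + l' = 1) :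
    GP u m c a ^ l * GP u m c b ^ l' ≤ GP u m c fun i => l * a i + l' * b i := by
  have h2 : ∀ n : ℕ, ∃ (ψ : ℝ → ℝ) (K : ℝ),
      ContDiff ℝ ∞ ψ ∧ (∀ t, ψ (-t) = ψ t) ∧ (∀ t, 0 ≤ deriv (deriv ψ) t) ∧
      (∀ t, deriv (deriv ψ) t ≤ K) ∧ (∀ t, 0 ≤ ψ t) ∧ ∀ t, |t| ≤ (n : ℝ) + 1 → ψ t = t ^ (2 * m) :=
    fun n => hC m ((n : ℝ) + 1) hm (by positivity)
  choose ψ K hs he hlo hhi h0 hψ using h2
  have hc : ∀ n, Continuous (ψ n) := fun n => (hs n).continuous
  have ta := GG_tendsto hc h0 hψ u hc0 a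
  have tb := GG_tendsto hc h0 hψ u hc0 b
  have tc := GG_tendsto hc h0 hψ u hc0 fun i => l * a i + l' * b i
  have hfam : ∀ n, Fam (N := N) (K n) fun _ => ψ n := fun n =>
    ⟨fun _ => hs n, fun _ => he n, fun _ => hlo n, fun _ => hhi n⟩
  refine le_of_tendsto_of_tendsto' ((ta.rpow_const (Or.inr hl.le)).mul
    (tb.rpow_const (Or.inr hl'.le))) tc fun n => ?_
  exact hR k N u (fun _ => ψ n) c (K n) a b l l' hc0 (hfam n) hl hl' h1

theorem GP_nonneg (u : Fin N → E k) (m : ℕ) (c : ℝ) (a : Fin N → ℝ) : 0 ≤ GP u m c a :=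
  integral_nonneg fun _ => (Real.exp_pos _).le

/-- The lower integral for the even powers and a Gaussian factor. -/
noncomputable def LP (u : Fin N → E k) (m : ℕ) (c : ℝ) (a : Fin N → ℝ) : ℝ≥0∞ :=
  ∫⁻ x : E k, ENNReal.ofReal
    (Real.exp (-(∑ i, (Real.exp (a i) * inner ℝ (u i) x) ^ (2 * m) + c / 2 * ‖x‖ ^ 2)))

theorem GP_integrable (u : Fin N → E k) (m : ℕ) {c : ℝ} (hc0 : 0 < c) (a : Fin N → ℝ) :
    Integrable fun x : E k => Real.exp
      (-(∑ i, (Real.exp (a i) * inner ℝ (u i) x) ^ (2 * m) + c / 2 * ‖x‖ ^ 2)) := by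
  refine (integrable_gauss (k := k) (half_pos hc0)).mono' ?_ ?_
  · apply Continuous.aestronglyMeasurable
    fun_prop
  · refine Eventually.of_forall fun x => ?_
    rw [Real.norm_of_nonneg (Real.exp_pos _).le]
    apply Real.exp_le_exp.2
    have : 0 ≤ ∑ i, (Real.exp (a i) * inner ℝ (u i) x) ^ (2 * m) :=
      Finset.sum_nonneg fun i _ => even_pow_nonneg _ _
    linarith

theorem LP_eq (u : Fin N → E k) (m : ℕ) {c : ℝ} (hc0 : 0 < c) (a : Fin N → ℝ) :
    LP u m c a = ENNReal.ofReal (GP u m c a) := by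
  unfold LP GP
  rw [ofReal_integral_eq_lintegral_ofReal (GP_integrable u m hc0 a)
    (Eventually.of_forall fun _ => (Real.exp_pos _).le)]

theorem LP_rpow (hR : ST_RLC) (hC : ST_CUT) {m : ℕ} (hm : 1 ≤ m) (u : Fin N → E k) {c : ℝ}
    (hc0 : 0 < c) (a b : Fin N → ℝ) {l l' : ℝ} (hl : 0 < l) (hl' : 0 < l') (h1 : l + l' = 1) :
    LP u m c a ^ l * LP u m c b ^ l' ≤ LP u m c fun i => l * a i + l' * b i := by
  rw [LP_eq u m hc0, LP_eq u m hc0, LP_eq u m hc0,
    ENNReal.ofReal_rpow_of_nonneg (GP_nonneg _ _ _ _) hl.le,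
    ENNReal.ofReal_rpow_of_nonneg (GP_nonneg _ _ _ _) hl'.le,
    ← ENNReal.ofReal_mul (Real.rpow_nonneg (GP_nonneg _ _ _ _) _)]
  exact ENNReal.ofReal_le_ofReal (GP_rpow hR hC hm u hc0 a b hl hl' h1)

/-- The lower integral for the even powers. -/
noncomputable def L0 (u : Fin N → E k) (m : ℕ) (a : Fin N → ℝ) : ℝ≥0∞ :=
  ∫⁻ x : E k, ENNReal.ofReal (Real.exp (-∑ i, (Real.exp (a i) * inner ℝ (u i) x) ^ (2 * m)))

theorem LP_tendsto (u : Fin N → E k) (m : ℕ) (a : Fin N → ℝ) :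
    Tendsto (fun n : ℕ => LP u m (1 / ((n : ℝ) + 1)) a) atTop (𝓝 (L0 u m a)) := by
  unfold LP L0
  apply lintegral_tendsto_of_tendsto_of_monotone
  · intro n
    apply Measurable.aemeasurable
    apply ENNReal.measurable_ofReal.comp
    apply Continuous.measurable
    fun_prop
  · refine Eventually.of_forall fun x => ?_
    intro n n' hn
    apply ENNReal.ofReal_le_ofReal
    apply Real.exp_le_exp.2
    have h1 : 1 / ((n' : ℝ) + 1) ≤ 1 / ((n : ℝ) + 1) := by
      apply one_div_le_one_div_of_le (by positivity)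
      have : (n : ℝ) ≤ n' := by exact_mod_cast hn
      linarith
    have h2 : 1 / ((n' : ℝ) + 1) / 2 * ‖x‖ ^ 2 ≤ 1 / ((n : ℝ) + 1) / 2 * ‖x‖ ^ 2 :=
      mul_le_mul_of_nonneg_right (by linarith) (sq_nonneg _)
    linarith
  · refine Eventually.of_forall fun x => ?_
    apply ENNReal.tendsto_ofReal
    apply (Real.continuous_exp.tendsto _).comp
    apply Tendsto.neg
    have h1 : Tendsto (fun n : ℕ => 1 / ((n : ℝ) + 1)) atTop (𝓝 0) :=
      tendsto_one_div_add_atTop_nhds_zero_nat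
    have h2 := (((h1.div_const 2).mul_const (‖x‖ ^ 2)).const_add
      (∑ i, (Real.exp (a i) * inner ℝ (u i) x) ^ (2 * m)))
    simpa using h2

theorem L0_ne_zero (u : Fin N → E k) (m : ℕ) (a : Fin N → ℝ) : L0 u m a ≠ 0 := by
  have hmeas : Measurable fun x : E k => ENNReal.ofReal
      (Real.exp (-∑ i, (Real.exp (a i) * inner ℝ (u i) x) ^ (2 * m))) :=
    ENNReal.measurable_ofReal.comp (Continuous.measurable (by fun_prop))
  unfold L0
  rw [Ne, lintegral_eq_zero_iff hmeas]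
  intro h
  have h1 : ∀ᵐ _ : E k, False := by
    filter_upwards [h] with x hx
    simp only [Pi.zero_apply, ENNReal.ofReal_eq_zero] at hx
    exact absurd hx (not_le.2 (Real.exp_pos _))
  obtain ⟨_, hx⟩ := h1.exists
  exact hx

theorem st_PLC (hR : ST_RLC) (hC : ST_CUT) : ST_PLC := by
  intro k N m u a b l l' hm hl hl' h1
  have ha := (LP_tendsto u m a).ennrpow_const l
  have hb := (LP_tendsto u m b).ennrpow_const l'
  have hne : ∀ (d : Fin N → ℝ) (s : ℝ), 0 < s → L0 u m d ^ s ≠ 0 := by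
    intro d s hs h
    rw [ENNReal.rpow_eq_zero_iff] at h
    rcases h with h | h
    · exact L0_ne_zero u m d h.1
    · linarith [h.2]
  have hL := ENNReal.Tendsto.mul ha (Or.inl (hne a l hl)) hb (Or.inl (hne b l' hl'))
  exact le_of_tendsto_of_tendsto' hL (LP_tendsto u m fun i => l * a i + l' * b i) fun n =>
    LP_rpow hR hC hm u (by positivity) a b hl hl' h1

end Pool.Agent.Helper77.MM
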