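import Pool.Agent.Helper77.MM.Int

/-! Row RST of the block B8. -/

open MeasureTheory Set Filter Topology
open scoped ContDiff

namespace Pool.Agent.Helper77.MM

open Pool.Agent.Helper83.MM

variable {k N : ℕ}

/-- Weights which increase by a function vanishing on large balls: the integrals converge. -/
theorem tendsto_JJ {W F : E k → ℝ} {Ψ : ℕ → E k → ℝ} (hWc : Continuous W) (hFc : Continuous F)
    (hΨc : ∀ n, Continuous (Ψ n)) (h0 : ∀ n x, 0 ≤ Ψ n x)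
    (hz : ∀ (n : ℕ) x, ‖x‖ ≤ (n : ℝ) + 1 → Ψ n x = 0)
    (hint : Integrable fun x => F x * Real.exp (-W x)) :
    Tendsto (fun n => JJ (fun x => W x + Ψ n x) F) atTop (𝓝 (JJ W F)) := by
  unfold JJ
  apply tendsto_integral_of_dominated_convergence (fun x => ‖F x * Real.exp (-W x)‖)
  · intro n
    apply Continuous.aestronglyMeasurable
    have := hΨc n
    fun_prop
  · exact hint.norm
  · intro n
    refine Eventually.of_forall fun x => ?_
    rw [norm_mul, norm_mul]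
    apply mul_le_mul_of_nonneg_left _ (norm_nonneg _)
    rw [Real.norm_of_nonneg (Real.exp_pos _).le, Real.norm_of_nonneg (Real.exp_pos _).le]
    apply Real.exp_le_exp.2
    linarith [h0 n x]
  · refine Eventually.of_forall fun x => ?_
    apply tendsto_const_nhds.congr'
    obtain ⟨n0, hn0⟩ := exists_nat_ge ‖x‖
    filter_upwards [eventually_ge_atTop n0] with n hn
    have : ((n0 : ℕ) : ℝ) ≤ n := by exact_mod_cast hn
    rw [hz n x (by linarith), add_zero]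

/-- The family `Ψ₀, c/2 |x|², ψ_i (⟨u_i, x⟩)`. -/
noncomputable def PF (u : Fin N → E k) (ψ : Fin N → ℝ → ℝ) (c : ℝ) (Ψ₀ : E k → ℝ) :
    Fin (N + 2) → E k → ℝ :=
  Fin.cons Ψ₀ (Fin.cons (fun x => c / 2 * ‖x‖ ^ 2) fun i x => ψ i (inner ℝ (u i) x))

theorem SS_PF (u : Fin N → E k) (ψ : Fin N → ℝ → ℝ) (c : ℝ) (Ψ₀ : E k → ℝ) (x : E k) :
    SS (PF u ψ c Ψ₀) x = WR u ψ c x + Ψ₀ x := by
  unfold SS PF WR
  rw [Fin.sum_univ_succ, Fin.sum_univ_succ]
  simp only [Fin.cons_zero, Fin.cons_succ]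
  ring

/-- coefficients -/
def sg (σ : Fin N → ℝ) : Fin (N + 2) → ℝ := Fin.cons 0 (Fin.cons 0 σ)

theorem sum_D1 {K : ℝ} {ψ : Fin N → ℝ → ℝ} (h : Fam K ψ) (u : Fin N → E k) (c : ℝ)
    (Ψ₀ : E k → ℝ) (σ : Fin N → ℝ) (x : E k) :
    ∑ i, sg σ i * D1 (PF u ψ c Ψ₀ i) x = G1 u ψ σ x := by
  unfold sg PF G1
  rw [Fin.sum_univ_succ, Fin.sum_univ_succ]
  simp only [Fin.cons_zero, Fin.cons_succ, zero_mul, zero_add]
  refine Finset.sum_congr rfl fun i _ => ?_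
  rw [ridge_D1 (fam_diff h i)]

theorem sum_D2 {K : ℝ} {ψ : Fin N → ℝ → ℝ} (h : Fam K ψ) (u : Fin N → E k) (c : ℝ)
    (Ψ₀ : E k → ℝ) (σ : Fin N → ℝ) (x : E k) :
    ∑ i, sg σ i ^ 2 * D2 (PF u ψ c Ψ₀ i) x = G2 u ψ σ x := by
  unfold sg PF G2
  rw [Fin.sum_univ_succ, Fin.sum_univ_succ]
  simp only [Fin.cons_zero, Fin.cons_succ]
  rw [zero_pow two_ne_zero, zero_mul, zero_mul, zero_add, zero_add]
  refine Finset.sum_congr rfl fun i _ => ?_
  rw [ridge_D2 (fam_diff h i) (fam_diff1 h i)]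

theorem star_glued (hS : ST_STAR) (hC : ST_SCL) (u : Fin N → E k) {ψ : Fin N → ℝ → ℝ}
    {c K lam R' b : ℝ} (hc : 0 < c) (h : Fam K ψ) (σ : Fin N → ℝ) {Ψ₀ : E k → ℝ}
    (hlam : 0 < lam) (h0s : ContDiff ℝ ∞ Ψ₀) (h0e : ∀ x, Ψ₀ (-x) = Ψ₀ x)
    (h0c : ConvexOn ℝ univ Ψ₀)
    (hfar : ∀ x, R' ≤ ‖x‖ → WR u ψ c x + Ψ₀ x = lam / 2 * ‖x‖ ^ 2 + b) :
    Pool.Agent.Helper83.MM.Star (PF u ψ c Ψ₀) (sg σ) := by
  -- properties of the family
  have hs : ∀ i, ContDiff ℝ ∞ (PF u ψ c Ψ₀ i) := by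
    intro i
    refine Fin.cases ?_ (fun i => Fin.cases ?_ (fun i => ?_) i) i
    · exact h0s
    · exact quad_contDiff c
    · exact ridge_contDiff (h.smooth i) (u i)
  have he : ∀ i x, PF u ψ c Ψ₀ i (-x) = PF u ψ c Ψ₀ i x := by
    intro i
    refine Fin.cases ?_ (fun i => Fin.cases ?_ (fun i => ?_) i) i
    · exact h0e
    · intro x
      simp [PF]
    · intro x
      simp [PF, inner_neg_right, h.even]
  have hcv : ∀ i, ConvexOn ℝ univ (PF u ψ c Ψ₀ i) := by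
    intro i
    refine Fin.cases ?_ (fun i => Fin.cases ?_ (fun i => ?_) i) i
    · exact h0c
    · exact quad_convex hc.le
    · exact (fam_convexOn h i).comp_linearMap (innerSL ℝ (u i)).toLinearMap
  set r : ℝ := (Real.sqrt lam)⁻¹ with hr
  have hsq : 0 < Real.sqrt lam := Real.sqrt_pos.2 hlam
  have hr0 : 0 < r := inv_pos.2 hsq
  have hr2 : lam * r ^ 2 = 1 := by
    rw [hr, inv_pow, Real.sq_sqrt hlam.le]
    exact mul_inv_cancel₀ hlam.ne'
  apply hC k (N + 2) _ (sg σ) r hr0 hs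
  have hdiff2 : ∀ i (x y : E k),
      fderiv ℝ (fderiv ℝ (fun x => PF u ψ c Ψ₀ i (r • x))) x y y =
        r ^ 2 * fderiv ℝ (fderiv ℝ (PF u ψ c Ψ₀ i)) (r • x) y y := by
    intro i x y
    have h1 : fderiv ℝ (fun x => PF u ψ c Ψ₀ i (r • x)) =
        fun x => r • fderiv ℝ (PF u ψ c Ψ₀ i) (r • x) :=
      funext fun x => fderiv_comp_smul (f := PF u ψ c Ψ₀ i) (x := x) (𝕜 := ℝ) r
    rw [h1]
    have h2 : Differentiable ℝ (fderiv ℝ (PF u ψ c Ψ₀ i)) :=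
      ((hs i).fderiv_right (m := ∞) (by simp)).differentiable (by simp)
    have h3 : HasFDerivAt (fun x => fderiv ℝ (PF u ψ c Ψ₀ i) (r • x))
        (r • fderiv ℝ (fderiv ℝ (PF u ψ c Ψ₀ i)) (r • x)) x := by
      have h4 := fderiv_comp_smul (f := fderiv ℝ (PF u ψ c Ψ₀ i)) (x := x) (𝕜 := ℝ) r
      rw [← h4]
      exact (h2.comp (differentiable_id.const_smul r)).differentiableAt.hasFDerivAt
    have h5 : HasFDerivAt (fun x => r • fderiv ℝ (PF u ψ c Ψ₀ i) (r • x))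
        (r • (r • fderiv ℝ (fderiv ℝ (PF u ψ c Ψ₀ i)) (r • x))) x := h3.const_smul r
    rw [h5.fderiv]
    simp only [smul_apply, smul_eq_mul]
    ring
  apply hS k (N + 2) (fun i x => PF u ψ c Ψ₀ i (r • x)) (c * r ^ 2) (R' / r) b
  · positivity
  · intro i
    exact (hs i).comp (contDiff_const_smul r)
  · intro i x
    simp only [smul_neg, he]
  · intro i
    exact (hcv i).comp_linearMap (r • LinearMap.id (R := ℝ) (M := E k))
  · intro x hx
    have h1 : SS (fun i x => PF u ψ c Ψ₀ i (r • x)) x = SS (PF u ψ c Ψ₀) (r • x) := rfl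
    rw [h1, SS_PF, hfar (r • x) (by
      rw [norm_smul, Real.norm_eq_abs, abs_of_pos hr0]
      rw [div_le_iff₀ hr0] at hx
      linarith)]
    rw [norm_smul, Real.norm_eq_abs, abs_of_pos hr0, mul_pow]
    have : lam / 2 * (r ^ 2 * ‖x‖ ^ 2) = (lam * r ^ 2) * ‖x‖ ^ 2 / 2 := by ring
    rw [this, hr2, one_mul]
  · intro x y
    simp only [hdiff2]
    rw [← Finset.mul_sum]
    have h1 : c * ‖y‖ ^ 2 ≤ ∑ i, fderiv ℝ (fderiv ℝ (PF u ψ c Ψ₀ i)) (r • x) y y := by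
      rw [Fin.sum_univ_succ, Fin.sum_univ_succ]
      have e0 : 0 ≤ fderiv ℝ (fderiv ℝ (PF u ψ c Ψ₀ 0)) (r • x) y y :=
        fderiv2_nonneg (hs 0) (hcv 0) _ _
      have e1 : fderiv ℝ (fderiv ℝ (PF u ψ c Ψ₀ (Fin.succ 0))) (r • x) y y = c * ‖y‖ ^ 2 := by
        have := quad_fderiv2 (k := k) c (r • x) y y
        rw [real_inner_self_eq_norm_sq] at this
        exact this
      have e2 : 0 ≤ ∑ i : Fin N,
          fderiv ℝ (fderiv ℝ (PF u ψ c Ψ₀ i.succ.succ)) (r • x) y y :=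
        Finset.sum_nonneg fun i _ => fderiv2_nonneg (hs _) (hcv _) _ _
      rw [e1]
      linarith
    have h2 := mul_le_mul_of_nonneg_left h1 (sq_nonneg r)
    linarith

theorem st_RST (hS : ST_STAR) (hC : ST_SCL) (hG : ST_GLU) : ST_RST := by
  intro k N u ψ c K σ hc h
  have hglu : ∀ n : ℕ, ∃ Ψ₀ : E k → ℝ, (Continuous Ψ₀ ∧ (∀ x, 0 ≤ Ψ₀ x) ∧
      ∀ x, ‖x‖ ≤ (n : ℝ) + 1 → Ψ₀ x = 0) ∧
      Pool.Agent.Helper83.MM.Star (PF u ψ c Ψ₀) (sg σ) := by
    intro n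
    obtain ⟨Ψ₀, lam, R', b, hlam, h1, h2, h3, h4, h5, h6⟩ :=
      hG k N u ψ c K ((n : ℝ) + 1) hc (by positivity) h
    exact ⟨Ψ₀, ⟨h1.continuous, h4, h5⟩, star_glued hS hC u hc h σ hlam h1 h2 h3 h6⟩
  choose Ψ hΨ hstar using hglu
  have hWc := WR_continuous (c := c) u h
  have hW := WR_ge (c := c) u h
  have hc2 : 0 < c / 2 := half_pos hc
  have hlim : ∀ F : E k → ℝ, Continuous F → Integrable (fun x => F x * Real.exp (-WR u ψ c x)) →
      Tendsto (fun n => JJ (SS (PF u ψ c (Ψ n))) F) atTop (𝓝 (JJ (WR u ψ c) F)) := by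
    intro F hF hI
    have h1 : ∀ n, SS (PF u ψ c (Ψ n)) = fun x => WR u ψ c x + Ψ n x :=
      fun n => funext fun x => SS_PF u ψ c (Ψ n) x
    simp only [h1]
    exact tendsto_JJ hWc hF (fun n => (hΨ n).1) (fun n => (hΨ n).2.1) (fun n => (hΨ n).2.2) hI
  have t0 := hlim (fun _ => 1) continuous_const
    (integrable_mul_exp (A := 1) (m := 0) continuous_const hWc hc2 (fun x => by simp) hW)
  have t1 := hlim (G1 u ψ σ) (G1_continuous u h σ)
    (integrable_mul_exp (G1_continuous u h σ) hWc hc2 (G1_bound u h σ) hW)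
  have t2 := hlim (fun x => G1 u ψ σ x ^ 2) ((G1_continuous u h σ).pow 2)
    (integrable_mul_exp ((G1_continuous u h σ).pow 2) hWc hc2 (G1_sq_bound u h σ) hW)
  have t3 := hlim (G2 u ψ σ) (G2_continuous u h σ)
    (integrable_mul_exp (G2_continuous u h σ) hWc hc2 (G2_bound u h σ) hW)
  refine le_of_tendsto_of_tendsto' ((t0.mul t2).sub (t1.pow 2)) (t0.mul t3) fun n => ?_
  have h1 := hstar n
  unfold Pool.Agent.Helper83.MM.Star at h1
  simp only [sum_D1 h, sum_D2 h] at h1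
  exact h1

end Pool.Agent.Helper77.MM
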