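import Pool.Agent.Helper77.MM.Ridge

/-! Integrability of functions of polynomial growth against Gaussian-like weights. -/

open MeasureTheory Set Filter Topology
open scoped ContDiff

namespace Pool.Agent.Helper77.MM

open Pool.Agent.Helper83.MM

variable {k N : ℕ}

theorem integrable_gauss {c : ℝ} (hc : 0 < c) :
    Integrable (fun x : E k => Real.exp (-(c * ‖x‖ ^ 2))) := by
  have h := (GaussianFourier.integrable_cexp_neg_mul_sq_norm_add (V := E k) (b := (c : ℂ))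
    (by simpa using hc) 0 0).norm
  refine h.congr (Eventually.of_forall fun x => ?_)
  simp only [Complex.norm_exp]
  congr 1
  simp [← Complex.ofReal_pow, ← Complex.ofReal_mul]

/-- `(1 + r)^m ≤ C exp (δ r)`. -/
theorem pow_le_exp {δ : ℝ} (hδ : 0 < δ) (m : ℕ) :
    ∃ C, 0 < C ∧ ∀ r : ℝ, 0 ≤ r → (1 + r) ^ m ≤ C * Real.exp (δ * r) := by
  refine ⟨(m.factorial : ℝ) / δ ^ m * Real.exp δ, by positivity, fun r hr => ?_⟩
  have h1 := Real.pow_div_factorial_le_exp (x := δ * (1 + r)) (by positivity) m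
  have h2 : (0 : ℝ) < m.factorial := by exact_mod_cast m.factorial_pos
  rw [div_le_iff₀ h2, mul_pow] at h1
  have h3 : 0 < δ ^ m := by positivity
  have h4 : Real.exp (δ * (1 + r)) = Real.exp δ * Real.exp (δ * r) := by
    rw [← Real.exp_add]
    ring_nf
  rw [h4] at h1
  have h5 : (m.factorial : ℝ) / δ ^ m * Real.exp δ * Real.exp (δ * r) =
      (Real.exp δ * Real.exp (δ * r) * m.factorial) / δ ^ m := by
    ring
  rw [h5, le_div_iff₀ h3]
  linarith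

theorem integrable_poly_gauss {c : ℝ} (hc : 0 < c) (m : ℕ) :
    Integrable (fun x : E k => (1 + ‖x‖ ^ 2) ^ m * Real.exp (-(c * ‖x‖ ^ 2))) := by
  obtain ⟨C, hC, h⟩ := pow_le_exp (half_pos hc) m
  refine ((integrable_gauss (k := k) (half_pos hc)).const_mul C).mono' ?_ ?_
  · apply Continuous.aestronglyMeasurable
    fun_prop
  · refine Eventually.of_forall fun x => ?_
    have h1 := h (‖x‖ ^ 2) (sq_nonneg _)
    have h2 : 0 ≤ (1 + ‖x‖ ^ 2) ^ m * Real.exp (-(c * ‖x‖ ^ 2)) := by positivity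
    rw [Real.norm_of_nonneg h2]
    calc (1 + ‖x‖ ^ 2) ^ m * Real.exp (-(c * ‖x‖ ^ 2))
        ≤ C * Real.exp (c / 2 * ‖x‖ ^ 2) * Real.exp (-(c * ‖x‖ ^ 2)) :=
          mul_le_mul_of_nonneg_right h1 (Real.exp_pos _).le
      _ = C * Real.exp (-(c / 2 * ‖x‖ ^ 2)) := by
          rw [mul_assoc, ← Real.exp_add]
          ring_nf

/-- A bound for `F exp (-W)`. -/
theorem norm_mul_exp_le {F W : E k → ℝ} {A B c : ℝ} {m : ℕ}
    (hF : ∀ x, |F x| ≤ A * (1 + ‖x‖ ^ 2) ^ m) (hW : ∀ x, c * ‖x‖ ^ 2 - B ≤ W x) (x : E k) :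
    ‖F x * Real.exp (-W x)‖ ≤
      (A * Real.exp B) * ((1 + ‖x‖ ^ 2) ^ m * Real.exp (-(c * ‖x‖ ^ 2))) := by
  rw [norm_mul, Real.norm_eq_abs, Real.norm_of_nonneg (Real.exp_pos _).le]
  have h1 : Real.exp (-W x) ≤ Real.exp B * Real.exp (-(c * ‖x‖ ^ 2)) := by
    rw [← Real.exp_add]
    apply Real.exp_le_exp.2
    linarith [hW x]
  calc |F x| * Real.exp (-W x)
      ≤ (A * (1 + ‖x‖ ^ 2) ^ m) * (Real.exp B * Real.exp (-(c * ‖x‖ ^ 2))) :=
        mul_le_mul (hF x) h1 (Real.exp_pos _).le ((abs_nonneg _).trans (hF x))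
    _ = _ := by ring

theorem integrable_mul_exp {F W : E k → ℝ} (hFc : Continuous F) (hWc : Continuous W)
    {A B c : ℝ} {m : ℕ} (hc : 0 < c) (hF : ∀ x, |F x| ≤ A * (1 + ‖x‖ ^ 2) ^ m)
    (hW : ∀ x, c * ‖x‖ ^ 2 - B ≤ W x) : Integrable (fun x => F x * Real.exp (-W x)) :=
  ((integrable_poly_gauss (k := k) hc m).const_mul (A * Real.exp B)).mono'
    (by apply Continuous.aestronglyMeasurable; fun_prop)
    (Eventually.of_forall fun x => norm_mul_exp_le hF hW x)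

/-! ### The potentials `WR` -/

section WR

variable {K c : ℝ} {ψ : Fin N → ℝ → ℝ} (u : Fin N → E k)

theorem WR_continuous (h : Fam K ψ) : Continuous (WR u ψ c) := by
  unfold WR
  have h1 : ∀ i, Continuous (ψ i) := fun i => (fam_diff h i).continuous
  fun_prop

theorem WR_ge (h : Fam K ψ) (x : E k) : c / 2 * ‖x‖ ^ 2 - (-∑ i, ψ i 0) ≤ WR u ψ c x := by
  unfold WR
  have h1 : ∑ i, ψ i 0 ≤ ∑ i, ψ i (inner ℝ (u i) x) :=
    Finset.sum_le_sum fun i _ => fam_zero_le h i _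
  linarith

/-- The first logarithmic derivative. -/
noncomputable def G1 (u : Fin N → E k) (ψ : Fin N → ℝ → ℝ) (σ : Fin N → ℝ) (x : E k) : ℝ :=
  ∑ i, σ i * (inner ℝ (u i) x * deriv (ψ i) (inner ℝ (u i) x))

/-- The second logarithmic derivative. -/
noncomputable def G2 (u : Fin N → E k) (ψ : Fin N → ℝ → ℝ) (σ : Fin N → ℝ) (x : E k) : ℝ :=
  ∑ i, σ i ^ 2 * (inner ℝ (u i) x * deriv (ψ i) (inner ℝ (u i) x) +
    inner ℝ (u i) x ^ 2 * deriv (deriv (ψ i)) (inner ℝ (u i) x))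

theorem G1_continuous (h : Fam K ψ) (σ : Fin N → ℝ) : Continuous (G1 u ψ σ) := by
  unfold G1
  have h1 : ∀ i, Continuous (deriv (ψ i)) := fun i => (fam_diff1 h i).continuous
  fun_prop

theorem G2_continuous (h : Fam K ψ) (σ : Fin N → ℝ) : Continuous (G2 u ψ σ) := by
  unfold G2
  have h1 : ∀ i, Continuous (deriv (ψ i)) := fun i => (fam_diff1 h i).continuous
  have h2 : ∀ i, Continuous (deriv (deriv (ψ i))) := fun i => (fam_contDiff_deriv2 h i).continuous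
  fun_prop

theorem sq_inner_le (v x : E k) : inner ℝ v x ^ 2 ≤ ‖v‖ ^ 2 * (1 + ‖x‖ ^ 2) := by
  have h1 : |inner ℝ v x| ≤ ‖v‖ * ‖x‖ := abs_real_inner_le_norm v x
  have h2 : inner ℝ v x ^ 2 ≤ (‖v‖ * ‖x‖) ^ 2 := by
    rw [← sq_abs]
    exact pow_le_pow_left₀ (abs_nonneg _) h1 2
  nlinarith [sq_nonneg ‖v‖]

theorem abs_term1_le (h : Fam K ψ) (i : Fin N) (x : E k) :
    |inner ℝ (u i) x * deriv (ψ i) (inner ℝ (u i) x)| ≤ K * ‖u i‖ ^ 2 * (1 + ‖x‖ ^ 2) := by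
  rw [abs_of_nonneg (fam_mul_deriv_nonneg h i _)]
  calc _ ≤ K * inner ℝ (u i) x ^ 2 := fam_mul_deriv_le h i _
    _ ≤ K * (‖u i‖ ^ 2 * (1 + ‖x‖ ^ 2)) :=
        mul_le_mul_of_nonneg_left (sq_inner_le _ _) (fam_K_nonneg h i)
    _ = _ := by ring

theorem abs_term2_le (h : Fam K ψ) (i : Fin N) (x : E k) :
    |inner ℝ (u i) x ^ 2 * deriv (deriv (ψ i)) (inner ℝ (u i) x)| ≤
      K * ‖u i‖ ^ 2 * (1 + ‖x‖ ^ 2) := by
  rw [abs_of_nonneg (mul_nonneg (sq_nonneg _) (h.lo i _))]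
  calc _ ≤ inner ℝ (u i) x ^ 2 * K := mul_le_mul_of_nonneg_left (h.hi i _) (sq_nonneg _)
    _ ≤ (‖u i‖ ^ 2 * (1 + ‖x‖ ^ 2)) * K :=
        mul_le_mul_of_nonneg_right (sq_inner_le _ _) (fam_K_nonneg h i)
    _ = _ := by ring

theorem G1_bound (h : Fam K ψ) (σ : Fin N → ℝ) (x : E k) :
    |G1 u ψ σ x| ≤ (∑ i, |σ i| * (K * ‖u i‖ ^ 2)) * (1 + ‖x‖ ^ 2) ^ 1 := by
  unfold G1
  refine (Finset.abs_sum_le_sum_abs _ _).trans ?_
  rw [pow_one, Finset.sum_mul]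
  refine Finset.sum_le_sum fun i _ => ?_
  rw [abs_mul, mul_assoc]
  exact mul_le_mul_of_nonneg_left (abs_term1_le u h i x) (abs_nonneg _)

theorem G1_sq_bound (h : Fam K ψ) (σ : Fin N → ℝ) (x : E k) :
    |G1 u ψ σ x ^ 2| ≤ (∑ i, |σ i| * (K * ‖u i‖ ^ 2)) ^ 2 * (1 + ‖x‖ ^ 2) ^ 2 := by
  rw [abs_pow, ← mul_pow]
  have := G1_bound u h σ x
  rw [pow_one] at this
  exact pow_le_pow_left₀ (abs_nonneg _) this 2

theorem G2_bound (h : Fam K ψ) (σ : Fin N → ℝ) (x : E k) :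
    |G2 u ψ σ x| ≤ (∑ i, σ i ^ 2 * (2 * (K * ‖u i‖ ^ 2))) * (1 + ‖x‖ ^ 2) ^ 1 := by
  unfold G2
  refine (Finset.abs_sum_le_sum_abs _ _).trans ?_
  rw [pow_one, Finset.sum_mul]
  refine Finset.sum_le_sum fun i _ => ?_
  rw [abs_mul, abs_of_nonneg (sq_nonneg (σ i)), mul_assoc]
  apply mul_le_mul_of_nonneg_left _ (sq_nonneg _)
  refine (abs_add_le _ _).trans ?_
  have h1 := abs_term1_le u h i x
  have h2 := abs_term2_le u h i x
  linarith

end WR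

end Pool.Agent.Helper77.MM
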